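import Mathlib

/-!
# The Kakutani `7x+1` map: almost every orbit falls below the power `n ^ 0.72` of its starting value

`C n` is `n / 2`, `n / 3`, `n / 5` or `7 n + 1`. We prove that all but `O (X ^ (1 - η))` of the `n ≤ X` have
an iterate below `n ^ 0.72` (a theorem of the type of Terras and Korec for the `3x+1` map, with a power
saving for the exceptional set).

The proof goes backwards along the orbit: the starting values with a given pattern of divisions and with
`C^[i] x` in a residue class modulo `m` form residue classes modulo `m` times the product of the divisors;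
the number of those with a small product is bounded by induction on `i` by means of a positive solution
`H` of a system of `30` linear inequalities, one for each residue modulo `30`.
-/

set_option autoImplicit false

namespace Pool.Agent.Results.MP_13c925_nt.AlmostAllIterates

open Finset

/-- the map -/
def C (n : ℕ) : ℕ :=
  if 2 ∣ n then n / 2 else if 3 ∣ n then n / 3 else if 5 ∣ n then n / 5 else 7 * n + 1

/-- the divisor used in a step -/
def q (n : ℕ) : ℕ := if 2 ∣ n then 2 else if 3 ∣ n then 3 else if 5 ∣ n then 5 else 1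

/-- one if the step is `7 n + 1` -/
def e (n : ℕ) : ℕ := if 2 ∣ n then 0 else if 3 ∣ n then 0 else if 5 ∣ n then 0 else 1

/-- the product of the divisors in the first `i` steps -/
def D : ℕ → ℕ → ℕ
  | 0, _ => 1
  | i + 1, x => D i x * q (C^[i] x)

/-- the number of the steps `7 n + 1` among the first `i` steps -/
def K : ℕ → ℕ → ℕ
  | 0, _ => 0
  | i + 1, x => K i x + e (C^[i] x)

/-! ### the weights -/

/-- the weights of the residues modulo `30` -/
def H (r : ℕ) : ℕ :=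
  [1202108, 616603, 647811, 442847, 391557, 740992, 488145, 760284, 785831, 602153, 510803, 536941,
    979678, 446629, 808357, 896010, 322785, 595032, 787478, 748343, 1025151, 634953, 402781, 549892,
    847532, 954848, 200694, 632792, 100000, 449042].getD r 0

theorem H_ineq : ∀ r < 30, 498270132 * H (2 * r % 30) +
    (if r % 2 = 1 then 331507333 * H (3 * r % 30) else 0) +
    (if Nat.gcd r 6 = 1 then 198397021 * H (5 * r % 30) else 0) +
    (if Nat.gcd (13 * (r + 29) % 30) 30 = 1 then 1013611000 * H (13 * (r + 29) % 30) else 0) ≤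
    1000000000 * H r := by
  decide

theorem H_ge : ∀ r < 30, 100000 ≤ H r := by
  decide

theorem H_le : ∀ r < 30, H r ≤ 1300000 := by
  decide

/-- the weights as real numbers -/
noncomputable def h (r : ℕ) : ℝ := (H (r % 30) : ℝ) / 100000

/-- the gain of a step `7 n + 1` -/
noncomputable def s : ℝ := 1000000000 / 1013611000

theorem s_pos : 0 < s := by unfold s; norm_num

theorem h_ge (r : ℕ) : 1 ≤ h r := by
  unfold h
  rw [le_div_iff₀ (by norm_num)]
  have := H_ge (r % 30) (Nat.mod_lt _ (by norm_num))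
  have h2 : ((100000 : ℕ) : ℝ) ≤ (H (r % 30) : ℝ) := by exact_mod_cast this
  push_cast at h2
  linarith

theorem h_nonneg (r : ℕ) : 0 ≤ h r := by linarith [h_ge r]

theorem h_le (r : ℕ) : h r ≤ 13 := by
  unfold h
  rw [div_le_iff₀ (by norm_num)]
  have := H_le (r % 30) (Nat.mod_lt _ (by norm_num))
  have h2 : (H (r % 30) : ℝ) ≤ ((1300000 : ℕ) : ℝ) := by exact_mod_cast this
  push_cast at h2
  linarith

theorem h_ineq (r : ℕ) : 498270132 / 1000000000 * h (2 * r) +
    (if r % 2 = 1 then 331507333 / 1000000000 * h (3 * r) else 0) +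
    (if Nat.gcd r 6 = 1 then 198397021 / 1000000000 * h (5 * r) else 0) +
    (if Nat.gcd (13 * (r + 29)) 30 = 1 then s⁻¹ * h (13 * (r + 29)) else 0) ≤ h r := by
  have h1 := H_ineq (r % 30) (Nat.mod_lt _ (by norm_num))
  have e1 : 2 * (r % 30) % 30 = 2 * r % 30 := by omega
  have e2 : 3 * (r % 30) % 30 = 3 * r % 30 := by omega
  have e3 : 5 * (r % 30) % 30 = 5 * r % 30 := by omega
  have e4 : 13 * (r % 30 + 29) % 30 = 13 * (r + 29) % 30 := by omega
  have e5 : r % 30 % 2 = r % 2 := by omega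
  have e6 : Nat.gcd (r % 30) 6 = Nat.gcd r 6 := by
    rw [Nat.gcd_comm _ 6, Nat.gcd_comm _ 6, Nat.gcd_rec 6 (r % 30), Nat.gcd_rec 6 r]
    congr 1
    omega
  have e7 : Nat.gcd (13 * (r + 29) % 30) 30 = Nat.gcd (13 * (r + 29)) 30 := by
    rw [Nat.gcd_comm _ 30, Nat.gcd_comm _ 30, Nat.gcd_rec 30 (13 * (r + 29)),
      Nat.gcd_rec 30 (13 * (r + 29) % 30)]
    congr 1
    omega
  simp only [e1, e2, e3, e4, e5, e6, e7] at h1
  have h2 : (((498270132 * H (2 * r % 30) +
    (if r % 2 = 1 then 331507333 * H (3 * r % 30) else 0) +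
    (if Nat.gcd r 6 = 1 then 198397021 * H (5 * r % 30) else 0) +
    (if Nat.gcd (13 * (r + 29)) 30 = 1 then 1013611000 * H (13 * (r + 29) % 30) else 0) : ℕ) : ℝ)) ≤
    ((1000000000 * H (r % 30) : ℕ) : ℝ) := Nat.cast_le.2 h1
  unfold h s
  push_cast at h2
  split_ifs at h2 ⊢ <;> norm_num at h2 ⊢ <;> linarith

/-- the factors for the divisors -/
theorem root_le {p u : ℝ} (hu : 0 ≤ u) (hp : 0 ≤ p) (h1 : p ≤ u ^ 200) : p ^ (1 / 200 : ℝ) ≤ u := by
  have h2 : (u ^ 200) ^ (1 / 200 : ℝ) = u := by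
    have e : (1 / 200 : ℝ) = ((200 : ℕ) : ℝ)⁻¹ := by norm_num
    rw [e]
    exact Real.pow_rpow_inv_natCast hu (by norm_num)
  calc p ^ (1 / 200 : ℝ) ≤ (u ^ 200) ^ (1 / 200 : ℝ) := Real.rpow_le_rpow hp h1 (by norm_num)
    _ = u := h2

theorem fac2 : (1 / 2 : ℝ) * (1 / 2 : ℝ) ^ (1 / 200 : ℝ) ≤ 498270132 / 1000000000 := by
  have := root_le (p := 1 / 2) (u := 2 * (498270132 / 1000000000)) (by norm_num) (by norm_num)
    (by norm_num)
  linarith

theorem fac3 : (1 / 3 : ℝ) * (1 / 3 : ℝ) ^ (1 / 200 : ℝ) ≤ 331507333 / 1000000000 := by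
  have := root_le (p := 1 / 3) (u := 3 * (331507333 / 1000000000)) (by norm_num) (by norm_num)
    (by norm_num)
  linarith

theorem fac5 : (1 / 5 : ℝ) * (1 / 5 : ℝ) ^ (1 / 200 : ℝ) ≤ 198397021 / 1000000000 := by
  have := root_le (p := 1 / 5) (u := 5 * (198397021 / 1000000000)) (by norm_num) (by norm_num)
    (by norm_num)
  linarith

/-! ### the count -/

/-- the starting values with given data after `i` steps -/
noncomputable def B (X i k m ρ : ℕ) (Y : ℝ) : Finset ℕ :=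
  (Icc 1 X).filter fun x => C^[i] x ≡ ρ [MOD m] ∧ (D i x : ℝ) ≤ Y ∧ K i x = k

/-- the bound -/
noncomputable def bd (X k m : ℕ) (Y : ℝ) : ℝ := ((X : ℝ) / m + Y) * Y ^ (1 / 200 : ℝ) * s ^ k

theorem bd_nonneg (X k m : ℕ) {Y : ℝ} (hY : 0 < Y) : 0 ≤ bd X k m Y := by
  unfold bd
  have := s_pos
  positivity

theorem bd_div (X k m p : ℕ) (hp : 0 < p) {Y : ℝ} (hY : 0 < Y) :
    bd X k (p * m) (Y / p) = (1 / (p : ℝ)) * (1 / (p : ℝ)) ^ (1 / 200 : ℝ) * bd X k m Y := by
  unfold bd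
  have hp' : (0 : ℝ) < p := by exact_mod_cast hp
  have e1 : (Y / p) ^ (1 / 200 : ℝ) = (1 / (p : ℝ)) ^ (1 / 200 : ℝ) * Y ^ (1 / 200 : ℝ) := by
    rw [← Real.mul_rpow (by positivity) hY.le]
    congr 1
    ring
  rw [e1]
  have e2 : (X : ℝ) / ((p * m : ℕ) : ℝ) + Y / p = 1 / p * ((X : ℝ) / m + Y) := by
    push_cast
    rw [mul_add, ← div_div, div_right_comm]
    ring
  rw [e2]
  ring

theorem card_class (X m ρ : ℕ) (hm : 0 < m) :
    (((Icc 1 X).filter fun x => x ≡ ρ [MOD m]).card : ℝ) ≤ (X : ℝ) / m + 1 := by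
  have h1 : ((Icc 1 X).filter fun x => x ≡ ρ [MOD m]).card ≤ X / m + 1 := by
    have h2 : ∀ x ∈ (Icc 1 X).filter (fun x => x ≡ ρ [MOD m]), x / m ∈ range (X / m + 1) := by
      intro x hx
      have := (mem_Icc.1 (mem_filter.1 hx).1).2
      exact mem_range.2 (Nat.lt_succ_of_le (Nat.div_le_div_right this))
    have h3 := card_le_card_of_injOn (fun x => x / m) h2 (by
      intro x hx y hy hxy
      have hx' := (mem_filter.1 (mem_coe.1 hx)).2
      have hy' := (mem_filter.1 (mem_coe.1 hy)).2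
      have h4 : x % m = y % m := hx'.trans hy'.symm
      have h5 : x / m = y / m := hxy
      rw [← Nat.div_add_mod x m, ← Nat.div_add_mod y m, h4, h5])
    rwa [card_range] at h3
  have h6 : ((X / m + 1 : ℕ) : ℝ) ≤ (X : ℝ) / m + 1 := by
    push_cast
    have := @Nat.cast_div_le ℝ _ _ _ X m
    linarith
  exact (Nat.cast_le.2 h1).trans h6

theorem step_sub (X i k m ρ j : ℕ) (Y : ℝ) (h30 : 30 ∣ m) (hm : 0 < m) (hj : 7 * j ≡ 1 [MOD m]) :
    B X (i + 1) k m ρ Y ⊆ B X i k (2 * m) (2 * ρ) (Y / 2) ∪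
      ((if ρ % 2 = 1 then B X i k (3 * m) (3 * ρ) (Y / 3) else ∅) ∪
      ((if Nat.gcd ρ 6 = 1 then B X i k (5 * m) (5 * ρ) (Y / 5) else ∅) ∪
      (if Nat.gcd (13 * (ρ + 29)) 30 = 1 ∧ k ≠ 0 then B X i (k - 1) m (j * (ρ + (m - 1))) Y else ∅))) := by
  intro x hx
  unfold B at hx
  obtain ⟨hx1, hx2, hx3, hx4⟩ := mem_filter.1 hx
  rw [Function.iterate_succ_apply'] at hx2
  rw [D] at hx3
  rw [K] at hx4
  set z := C^[i] x with hz
  have hD0 : (0 : ℝ) ≤ (D i x : ℝ) := Nat.cast_nonneg _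
  have hm2 : 2 ∣ m := (by norm_num : (2 : ℕ) ∣ 30).trans h30
  have hm3 : 3 ∣ m := (by norm_num : (3 : ℕ) ∣ 30).trans h30
  simp only [mem_union]
  unfold C at hx2
  unfold q at hx3
  unfold e at hx4
  by_cases h2 : 2 ∣ z
  · left
    rw [if_pos h2] at hx2 hx3 hx4
    refine mem_filter.2 ⟨hx1, ?_, ?_, by omega⟩
    · have h5 : z = 2 * (z / 2) := (Nat.mul_div_cancel' h2).symm
      rw [← hz, h5]
      exact Nat.ModEq.mul_left' 2 hx2
    · push_cast at hx3
      rw [le_div_iff₀ (by norm_num)]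
      exact hx3
  right
  rw [if_neg h2] at hx2 hx3 hx4
  by_cases h3 : 3 ∣ z
  · left
    rw [if_pos h3] at hx2 hx3 hx4
    have h5 : z = 3 * (z / 3) := (Nat.mul_div_cancel' h3).symm
    have h6 : z / 3 % 2 = ρ % 2 := hx2.of_dvd hm2
    have h7 : ρ % 2 = 1 := by omega
    rw [if_pos h7]
    refine mem_filter.2 ⟨hx1, ?_, ?_, by omega⟩
    · rw [← hz, h5]
      exact Nat.ModEq.mul_left' 3 hx2
    · push_cast at hx3
      rw [le_div_iff₀ (by norm_num)]
      exact hx3
  right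
  rw [if_neg h3] at hx2 hx3 hx4
  by_cases h4 : 5 ∣ z
  · left
    rw [if_pos h4] at hx2 hx3 hx4
    have h5 : z = 5 * (z / 5) := (Nat.mul_div_cancel' h4).symm
    have h6 : z / 5 % 2 = ρ % 2 := hx2.of_dvd hm2
    have h8 : z / 5 % 3 = ρ % 3 := hx2.of_dvd hm3
    have h7 : Nat.gcd ρ 6 = 1 := by
      have a1 : ρ % 2 = 1 := by omega
      have a2 : ρ % 3 = 1 ∨ ρ % 3 = 2 := by omega
      have a3 : ρ % 6 = 1 ∨ ρ % 6 = 5 := by omega
      rw [Nat.gcd_comm, Nat.gcd_rec]
      rcases a3 with a | a <;> rw [a] <;> rfl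
    rw [if_pos h7]
    refine mem_filter.2 ⟨hx1, ?_, ?_, by omega⟩
    · rw [← hz, h5]
      exact Nat.ModEq.mul_left' 5 hx2
    · push_cast at hx3
      rw [le_div_iff₀ (by norm_num)]
      exact hx3
  right
  rw [if_neg h4] at hx2 hx3 hx4
  have h5 : z ≡ j * (ρ + (m - 1)) [MOD m] := by
    have h6 : 7 * z + m ≡ ρ + (m - 1) [MOD m] := by
      have h7 := Nat.ModEq.add_right (m - 1) hx2
      have h8 : 7 * z + 1 + (m - 1) = 7 * z + m := by omega
      rwa [h8] at h7
    have h7 : 7 * z ≡ ρ + (m - 1) [MOD m] := by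
      have h8 : 7 * z + m ≡ 7 * z [MOD m] := by
        unfold Nat.ModEq
        rw [Nat.add_mod_right]
      exact h8.symm.trans h6
    have h8 : j * (7 * z) ≡ j * (ρ + (m - 1)) [MOD m] := Nat.ModEq.mul_left j h7
    have h9 : 7 * j * z ≡ 1 * z [MOD m] := Nat.ModEq.mul_right z hj
    have h10 : 7 * j * z = j * (7 * z) := by ring
    rw [h10, one_mul] at h9
    exact h9.symm.trans h8
  have h6 : z ≡ 13 * (ρ + 29) [MOD 30] := by
    have a1 : 7 * z + 1 ≡ ρ [MOD 30] := hx2.of_dvd h30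
    unfold Nat.ModEq at a1 ⊢
    omega
  have h7 : Nat.gcd (13 * (ρ + 29)) 30 = 1 := by
    have a1 : z % 30 = 13 * (ρ + 29) % 30 := h6
    have a2 : Nat.gcd (13 * (ρ + 29)) 30 = Nat.gcd z 30 := by
      rw [Nat.gcd_comm _ 30, Nat.gcd_comm _ 30, Nat.gcd_rec 30 (13 * (ρ + 29)), Nat.gcd_rec 30 z, a1]
    rw [a2]
    have a3 : Nat.Coprime z 2 := ((Nat.Prime.coprime_iff_not_dvd Nat.prime_two).2 h2).symm
    have a4 : Nat.Coprime z 3 := ((Nat.Prime.coprime_iff_not_dvd Nat.prime_three).2 h3).symm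
    have a5 : Nat.Coprime z 5 := ((Nat.Prime.coprime_iff_not_dvd Nat.prime_five).2 h4).symm
    have a6 : Nat.Coprime z (2 * 3 * 5) := (a3.mul_right a4).mul_right a5
    exact a6
  rw [if_pos ⟨h7, by omega⟩]
  refine mem_filter.2 ⟨hx1, h5, ?_, by omega⟩
  rw [mul_one] at hx3
  exact hx3

theorem count (X : ℕ) : ∀ (i k m ρ : ℕ) (Y : ℝ), 30 ∣ m → 0 < m → Nat.Coprime 7 m → 0 < Y →
    ((B X i k m ρ Y).card : ℝ) ≤ bd X k m Y * h ρ := by
  intro i
  induction i with
  | zero =>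
    intro k m ρ Y h30 hm h7 hY
    by_cases hk : k = 0
    · subst hk
      by_cases hY1 : 1 ≤ Y
      · have h1 : B X 0 0 m ρ Y ⊆ (Icc 1 X).filter fun x => x ≡ ρ [MOD m] := by
          intro x hx
          unfold B at hx
          obtain ⟨hx1, hx2, hx3, hx4⟩ := mem_filter.1 hx
          exact mem_filter.2 ⟨hx1, hx2⟩
        have h2 := (Nat.cast_le (α := ℝ)).2 (card_le_card h1)
        have h3 := card_class X m ρ hm
        have h4 : (1 : ℝ) ≤ Y ^ (1 / 200 : ℝ) := Real.one_le_rpow hY1 (by norm_num)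
        have h5 := h_ge ρ
        have h6 : (0 : ℝ) ≤ (X : ℝ) / m := by positivity
        unfold bd
        rw [pow_zero, mul_one]
        calc ((B X 0 0 m ρ Y).card : ℝ) ≤ ((X : ℝ) / m + Y) * 1 * 1 := by linarith
          _ ≤ ((X : ℝ) / m + Y) * Y ^ (1 / 200 : ℝ) * h ρ := by gcongr
      · have h1 : B X 0 0 m ρ Y = ∅ := by
          unfold B
          rw [filter_eq_empty_iff]
          rintro x - ⟨-, h2, -⟩
          rw [D] at h2
          push_cast at h2
          exact hY1 h2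
        rw [h1, card_empty, Nat.cast_zero]
        exact mul_nonneg (bd_nonneg X 0 m hY) (h_nonneg ρ)
    · have h1 : B X 0 k m ρ Y = ∅ := by
        unfold B
        rw [filter_eq_empty_iff]
        rintro x - ⟨-, -, h2⟩
        rw [K] at h2
        exact hk h2.symm
      rw [h1, card_empty, Nat.cast_zero]
      exact mul_nonneg (bd_nonneg X k m hY) (h_nonneg ρ)
  | succ i ih =>
    intro k m ρ Y h30 hm h7 hY
    obtain ⟨j, hj⟩ : ∃ j, 7 * j ≡ 1 [MOD m] := by
      by_cases hm1 : m = 1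
      · exact ⟨0, by rw [hm1]; exact Nat.modEq_one⟩
      · obtain ⟨j, -, hj⟩ := Nat.exists_mul_mod_eq_one_of_coprime h7 (by omega)
        refine ⟨j, ?_⟩
        unfold Nat.ModEq
        rw [hj, Nat.mod_eq_of_lt (by omega)]
    have hsub := card_le_card (step_sub X i k m ρ j Y h30 hm hj)
    have hsub2 := hsub.trans ((card_union_le _ _).trans (Nat.add_le_add_left ((card_union_le _ _).trans
      (Nat.add_le_add_left (card_union_le _ _) _)) _))
    have hb := bd_nonneg X k m hY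
    have c2 : ((B X i k (2 * m) (2 * ρ) (Y / 2)).card : ℝ) ≤
        498270132 / 1000000000 * h (2 * ρ) * bd X k m Y := by
      have a1 := ih k (2 * m) (2 * ρ) (Y / 2) (Dvd.dvd.mul_left h30 2) (by omega)
        (Nat.Coprime.mul_right (by norm_num) h7) (by positivity)
      have a2 := bd_div X k m 2 (by norm_num) hY
      push_cast at a2
      rw [a2] at a1
      have a3 := mul_le_mul_of_nonneg_right fac2 (mul_nonneg hb (h_nonneg (2 * ρ)))
      calc _ ≤ _ := a1
        _ = 1 / 2 * (1 / 2 : ℝ) ^ (1 / 200 : ℝ) * (bd X k m Y * h (2 * ρ)) := by ring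
        _ ≤ _ := a3
        _ = _ := by ring
    have c3 : ((if ρ % 2 = 1 then B X i k (3 * m) (3 * ρ) (Y / 3) else ∅ : Finset ℕ).card : ℝ) ≤
        (if ρ % 2 = 1 then 331507333 / 1000000000 * h (3 * ρ) else 0) * bd X k m Y := by
      split_ifs with hc
      · have a1 := ih k (3 * m) (3 * ρ) (Y / 3) (Dvd.dvd.mul_left h30 3) (by omega)
          (Nat.Coprime.mul_right (by norm_num) h7) (by positivity)
        have a2 := bd_div X k m 3 (by norm_num) hY
        push_cast at a2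
        rw [a2] at a1
        have a3 := mul_le_mul_of_nonneg_right fac3 (mul_nonneg hb (h_nonneg (3 * ρ)))
        calc _ ≤ _ := a1
          _ = 1 / 3 * (1 / 3 : ℝ) ^ (1 / 200 : ℝ) * (bd X k m Y * h (3 * ρ)) := by ring
          _ ≤ _ := a3
          _ = _ := by ring
      · simp
    have c5 : ((if Nat.gcd ρ 6 = 1 then B X i k (5 * m) (5 * ρ) (Y / 5) else ∅ : Finset ℕ).card : ℝ) ≤
        (if Nat.gcd ρ 6 = 1 then 198397021 / 1000000000 * h (5 * ρ) else 0) * bd X k m Y := by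
      split_ifs with hc
      · have a1 := ih k (5 * m) (5 * ρ) (Y / 5) (Dvd.dvd.mul_left h30 5) (by omega)
          (Nat.Coprime.mul_right (by norm_num) h7) (by positivity)
        have a2 := bd_div X k m 5 (by norm_num) hY
        push_cast at a2
        rw [a2] at a1
        have a3 := mul_le_mul_of_nonneg_right fac5 (mul_nonneg hb (h_nonneg (5 * ρ)))
        calc _ ≤ _ := a1
          _ = 1 / 5 * (1 / 5 : ℝ) ^ (1 / 200 : ℝ) * (bd X k m Y * h (5 * ρ)) := by ring
          _ ≤ _ := a3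
          _ = _ := by ring
      · simp
    have c7 : ((if Nat.gcd (13 * (ρ + 29)) 30 = 1 ∧ k ≠ 0 then
        B X i (k - 1) m (j * (ρ + (m - 1))) Y else ∅ : Finset ℕ).card : ℝ) ≤
        (if Nat.gcd (13 * (ρ + 29)) 30 = 1 then s⁻¹ * h (13 * (ρ + 29)) else 0) * bd X k m Y := by
      by_cases hc : Nat.gcd (13 * (ρ + 29)) 30 = 1
      · rw [if_pos hc]
        by_cases hk : k = 0
        · rw [if_neg (fun hh => hh.2 hk), card_empty, Nat.cast_zero]
          have := s_pos
          have := h_nonneg (13 * (ρ + 29))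
          positivity
        · rw [if_pos ⟨hc, hk⟩]
          have a1 := ih (k - 1) m (j * (ρ + (m - 1))) Y h30 hm h7 hY
          have a2 : h (j * (ρ + (m - 1))) = h (13 * (ρ + 29)) := by
            have b1 : 7 * j ≡ 1 [MOD 30] := hj.of_dvd h30
            have b2 : j ≡ 13 [MOD 30] := by
              unfold Nat.ModEq at b1 ⊢
              omega
            have b3 : ρ + (m - 1) ≡ ρ + 29 [MOD 30] := by
              obtain ⟨c, rfl⟩ := h30
              unfold Nat.ModEq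
              omega
            have b4 : j * (ρ + (m - 1)) % 30 = 13 * (ρ + 29) % 30 := Nat.ModEq.mul b2 b3
            unfold h
            rw [b4]
          have a3 : bd X (k - 1) m Y = s⁻¹ * bd X k m Y := by
            unfold bd
            obtain ⟨k', rfl⟩ : ∃ k', k = k' + 1 := ⟨k - 1, by omega⟩
            rw [Nat.add_sub_cancel, pow_succ]
            have := s_pos.ne'
            field_simp
          rw [a2, a3] at a1
          calc _ ≤ _ := a1
            _ = _ := by ring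
      · rw [if_neg hc, if_neg (fun hh => hc hh.1), card_empty, Nat.cast_zero, zero_mul]
    have hR := (Nat.cast_le (α := ℝ)).2 hsub2
    push_cast at hR
    have hi := mul_le_mul_of_nonneg_right (h_ineq ρ) hb
    calc ((B X (i + 1) k m ρ Y).card : ℝ) ≤ _ := hR
      _ ≤ (498270132 / 1000000000 * h (2 * ρ) +
          (if ρ % 2 = 1 then 331507333 / 1000000000 * h (3 * ρ) else 0) +
          (if Nat.gcd ρ 6 = 1 then 198397021 / 1000000000 * h (5 * ρ) else 0) +
          (if Nat.gcd (13 * (ρ + 29)) 30 = 1 then s⁻¹ * h (13 * (ρ + 29)) else 0)) * bd X k m Y := by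
        linarith
      _ ≤ h ρ * bd X k m Y := hi
      _ = _ := by ring

/-! ### the orbits -/

theorem q_mul (n : ℕ) : (e n = 0 ∧ q n * C n = n ∧ 2 ≤ q n) ∨
    (e n = 1 ∧ q n = 1 ∧ C n = 7 * n + 1) := by
  unfold e q C
  by_cases h2 : 2 ∣ n
  · left
    rw [if_pos h2, if_pos h2, if_pos h2]
    exact ⟨rfl, Nat.mul_div_cancel' h2, le_refl 2⟩
  rw [if_neg h2, if_neg h2, if_neg h2]
  by_cases h3 : 3 ∣ n
  · left
    rw [if_pos h3, if_pos h3, if_pos h3]
    exact ⟨rfl, Nat.mul_div_cancel' h3, by norm_num⟩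
  rw [if_neg h3, if_neg h3, if_neg h3]
  by_cases h5 : 5 ∣ n
  · left
    rw [if_pos h5, if_pos h5, if_pos h5]
    exact ⟨rfl, Nat.mul_div_cancel' h5, by norm_num⟩
  rw [if_neg h5, if_neg h5, if_neg h5]
  right
  exact ⟨rfl, rfl, rfl⟩

theorem orbit_le {L : ℝ} (hL : 0 < L) (x : ℕ) (hx : ∀ i, L ≤ (C^[i] x : ℝ)) (i : ℕ) :
    (D i x : ℝ) * (C^[i] x : ℝ) ≤ (7 + 1 / L) ^ (K i x) * x := by
  induction i with
  | zero => simp [D, K]
  | succ i ih =>
    rw [Function.iterate_succ_apply', D, K]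
    rcases q_mul (C^[i] x) with ⟨h1, h2, -⟩ | ⟨h1, h2, h3⟩
    · rw [h1, add_zero]
      have h4 : ((q (C^[i] x) : ℕ) : ℝ) * (C (C^[i] x) : ℝ) = (C^[i] x : ℝ) := by exact_mod_cast h2
      push_cast
      rw [mul_assoc, h4]
      exact ih
    · rw [h1, h2, h3, mul_one, pow_succ]
      push_cast
      have h4 : (7 : ℝ) * (C^[i] x : ℝ) + 1 ≤ (7 + 1 / L) * (C^[i] x : ℝ) := by
        have h5 : 1 ≤ 1 / L * (C^[i] x : ℝ) := by
          rw [div_mul_eq_mul_div, one_mul, le_div_iff₀ hL, one_mul]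
          exact hx i
        linarith
      have h6 : (0 : ℝ) ≤ (D i x : ℝ) := Nat.cast_nonneg _
      have h7 : (0 : ℝ) ≤ 7 + 1 / L := by positivity
      calc (D i x : ℝ) * (7 * (C^[i] x : ℝ) + 1) ≤ (D i x : ℝ) * ((7 + 1 / L) * (C^[i] x : ℝ)) :=
            mul_le_mul_of_nonneg_left h4 h6
        _ = (7 + 1 / L) * ((D i x : ℝ) * (C^[i] x : ℝ)) := by ring
        _ ≤ (7 + 1 / L) * ((7 + 1 / L) ^ (K i x) * x) := mul_le_mul_of_nonneg_left ih h7
        _ = _ := by ring

theorem two_pow_le (x i : ℕ) : 2 ^ i ≤ D i x * 2 ^ (K i x) := by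
  induction i with
  | zero => simp [D, K]
  | succ i ih =>
    rw [D, K]
    rcases q_mul (C^[i] x) with ⟨h1, -, h2⟩ | ⟨h1, h2, -⟩
    · rw [h1, add_zero, pow_succ]
      calc 2 ^ i * 2 ≤ D i x * 2 ^ (K i x) * q (C^[i] x) := Nat.mul_le_mul ih h2
        _ = _ := by ring
    · rw [h1, h2, mul_one, pow_succ, pow_succ, ← mul_assoc]
      exact Nat.mul_le_mul_right 2 ih

theorem K_hit (x k : ℕ) : ∀ n, k < K n x → ∃ i < n, K i x = k := by
  intro n
  induction n with
  | zero =>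
    intro h
    rw [K] at h
    omega
  | succ n ih =>
    intro h
    rw [K] at h
    by_cases h1 : k < K n x
    · obtain ⟨i, hi, h2⟩ := ih h1
      exact ⟨i, by omega, h2⟩
    · refine ⟨n, by omega, ?_⟩
      rcases q_mul (C^[n] x) with ⟨h3, -⟩ | ⟨h3, -⟩ <;> omega

open scoped Classical in
theorem sub_union (X k l : ℕ) {L Y : ℝ} (hL : 0 < L) (hY : 0 < Y) (hl : Y < 2 ^ l)
    (hLY : (7 + 1 / L) ^ k * X ≤ L * Y) :
    ((Icc 1 X).filter fun n : ℕ => ∀ i, L ≤ (C^[i] n : ℝ)) ⊆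
      (range (k + l)).biUnion fun i => (range 30).biUnion fun r => B X i k 30 r Y := by
  intro x hx
  obtain ⟨hx1, hx2⟩ := mem_filter.1 hx
  have hxX : (x : ℝ) ≤ X := by exact_mod_cast (mem_Icc.1 hx1).2
  have h71 : (1 : ℝ) ≤ 7 + 1 / L := by
    have : 0 < 1 / L := by positivity
    linarith
  have hD : ∀ i, K i x ≤ k → (D i x : ℝ) ≤ Y := by
    intro i hi
    have h1 := orbit_le hL x hx2 i
    have h2 : L * (D i x : ℝ) ≤ L * Y := by
      calc L * (D i x : ℝ) = (D i x : ℝ) * L := mul_comm _ _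
        _ ≤ (D i x : ℝ) * (C^[i] x : ℝ) := mul_le_mul_of_nonneg_left (hx2 i) (Nat.cast_nonneg _)
        _ ≤ (7 + 1 / L) ^ (K i x) * x := h1
        _ ≤ (7 + 1 / L) ^ k * X := by
            apply mul_le_mul (pow_le_pow_right₀ h71 hi) hxX (Nat.cast_nonneg _) (by positivity)
        _ ≤ L * Y := hLY
    exact le_of_mul_le_mul_left h2 hL
  have hK : k < K (k + l) x := by
    by_contra hc
    have hc' : K (k + l) x ≤ k := by omega
    have h1 := hD _ hc'
    have h2 : ((2 ^ (k + l) : ℕ) : ℝ) ≤ ((D (k + l) x * 2 ^ (K (k + l) x) : ℕ) : ℝ) :=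
      Nat.cast_le.2 (two_pow_le x (k + l))
    push_cast at h2
    have h3 : (2 : ℝ) ^ (K (k + l) x) ≤ 2 ^ k := pow_le_pow_right₀ (by norm_num) hc'
    have h4 : (2 : ℝ) ^ (k + l) ≤ Y * 2 ^ k := by
      refine h2.trans ?_
      apply mul_le_mul h1 h3 (by positivity) hY.le
    rw [pow_add] at h4
    have h5 : (0 : ℝ) < 2 ^ k := by positivity
    nlinarith
  obtain ⟨i, hi, hik⟩ := K_hit x k _ hK
  refine mem_biUnion.2 ⟨i, mem_range.2 hi, mem_biUnion.2 ⟨C^[i] x % 30,
    mem_range.2 (Nat.mod_lt _ (by norm_num)), ?_⟩⟩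
  exact mem_filter.2 ⟨hx1, (Nat.mod_modEq _ _).symm, hD i hik.le, hik⟩

open scoped Classical in
theorem card_high (X k l : ℕ) {L Y : ℝ} (hL : 0 < L) (hY : 1 ≤ Y) (hYX : Y ≤ X) (hl : Y < 2 ^ l)
    (hLY : (7 + 1 / L) ^ k * X ≤ L * Y) :
    (((Icc 1 X).filter fun n : ℕ => ∀ i, L ≤ (C^[i] n : ℝ)).card : ℝ) ≤
      ((k + l : ℕ) : ℝ) * (780 * (X * (X : ℝ) ^ (1 / 200 : ℝ) * s ^ k)) := by
  have hY0 : 0 < Y := by linarith
  have hX0 : (0 : ℝ) ≤ X := Nat.cast_nonneg _
  have h1 := (Nat.cast_le (α := ℝ)).2 (card_le_card (sub_union X k l hL hY0 hl hLY))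
  refine h1.trans ?_
  have h2 : (((range (k + l)).biUnion fun i => (range 30).biUnion fun r => B X i k 30 r Y).card : ℝ) ≤
      ∑ i ∈ range (k + l), ∑ r ∈ range 30, ((B X i k 30 r Y).card : ℝ) := by
    have h3 : ((range (k + l)).biUnion fun i => (range 30).biUnion fun r => B X i k 30 r Y).card ≤
        ∑ i ∈ range (k + l), ∑ r ∈ range 30, (B X i k 30 r Y).card :=
      card_biUnion_le.trans (sum_le_sum fun i _ => card_biUnion_le)
    exact_mod_cast h3
  refine h2.trans ?_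
  have hs := s_pos
  have h4 : ∀ i ∈ range (k + l), ∑ r ∈ range 30, ((B X i k 30 r Y).card : ℝ) ≤
      780 * (X * (X : ℝ) ^ (1 / 200 : ℝ) * s ^ k) := by
    intro i _
    have h5 : ∀ r ∈ range 30, ((B X i k 30 r Y).card : ℝ) ≤
        26 * (X * (X : ℝ) ^ (1 / 200 : ℝ) * s ^ k) := by
      intro r _
      have h6 := count X i k 30 r Y (dvd_refl 30) (by norm_num) (by norm_num) hY0
      have h7 : bd X k 30 Y ≤ 2 * (X * (X : ℝ) ^ (1 / 200 : ℝ) * s ^ k) := by
        unfold bd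
        have h8 : (X : ℝ) / (30 : ℕ) + Y ≤ 2 * X := by
          have : (X : ℝ) / (30 : ℕ) ≤ X := div_le_self hX0 (by norm_num)
          linarith
        have h9 : Y ^ (1 / 200 : ℝ) ≤ (X : ℝ) ^ (1 / 200 : ℝ) :=
          Real.rpow_le_rpow hY0.le hYX (by norm_num)
        calc ((X : ℝ) / (30 : ℕ) + Y) * Y ^ (1 / 200 : ℝ) * s ^ k ≤
            (2 * X) * (X : ℝ) ^ (1 / 200 : ℝ) * s ^ k := by gcongr
          _ = _ := by ring
      calc ((B X i k 30 r Y).card : ℝ) ≤ bd X k 30 Y * h r := h6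
        _ ≤ (2 * (X * (X : ℝ) ^ (1 / 200 : ℝ) * s ^ k)) * 13 :=
            mul_le_mul h7 (h_le r) (h_nonneg r) (by positivity)
        _ = _ := by ring
    refine (sum_le_sum h5).trans (le_of_eq ?_)
    rw [sum_const, card_range, nsmul_eq_mul]
    push_cast
    ring
  refine (sum_le_sum h4).trans (le_of_eq ?_)
  rw [sum_const, card_range, nsmul_eq_mul]

/-! ### the parameters -/

theorem log7 : Real.log 7 < 144 * (-Real.log s) := by
  have h1 : -Real.log s = Real.log (1013611000 / 1000000000) := by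
    unfold s
    rw [← Real.log_inv]
    congr 1
    norm_num
  rw [h1]
  have h2 : 144 * Real.log (1013611000 / 1000000000) =
      Real.log ((1013611000 / 1000000000 : ℝ) ^ 144) := by
    rw [Real.log_pow]
    push_cast
    ring
  rw [h2]
  exact Real.log_lt_log (by norm_num) (by norm_num)

theorem s_lt : 0 < -Real.log s := by
  have h1 := log7
  have h2 : 0 < Real.log 7 := Real.log_pos (by norm_num)
  linarith

open scoped Classical in
/-- **Theorem.** All but `O (X ^ (1 - η))` of the numbers `n ≤ X` have an iterate below `n ^ 0.72`. -/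
theorem result : ∃ A η : ℝ, 0 < η ∧ ∀ X : ℕ, 1 ≤ X →
    (((Icc 1 X).filter fun n : ℕ => ∀ i, (n : ℝ) ^ (0.72 : ℝ) ≤ (C^[i] n : ℝ)).card : ℝ) ≤
      A * (X : ℝ) ^ (1 - η) := by
  set lam := -Real.log s with hlam
  have hlam0 : 0 < lam := s_lt
  set l7 := Real.log 7 with hl7
  have hl70 : 0 < l7 := Real.log_pos (by norm_num)
  have h144 : l7 < 144 * lam := log7
  obtain ⟨κ, hκ1, hκ2, hκ0⟩ : ∃ κ : ℝ, 1 / 200 < κ * lam ∧ κ * l7 < 18 / 25 ∧ 0 < κ := by
    refine ⟨(1 / (200 * lam) + 18 / (25 * l7)) / 2, ?_, ?_, by positivity⟩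
    · have e1 : (1 / (200 * lam) + 18 / (25 * l7)) / 2 * lam =
          1 / 400 + 1 / 400 * (144 * lam / l7) := by
        field_simp
        ring
      rw [e1]
      have : 1 < 144 * lam / l7 := by rwa [lt_div_iff₀ hl70, one_mul]
      linarith
    · have e1 : (1 / (200 * lam) + 18 / (25 * l7)) / 2 * l7 =
          9 / 25 + 9 / 25 * (l7 / (144 * lam)) := by
        field_simp
        ring
      rw [e1]
      have : l7 / (144 * lam) < 1 := by rwa [div_lt_one (by positivity)]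
      linarith
  obtain ⟨δ, hδ⟩ : ∃ δ : ℝ, δ = (18 / 25 - κ * l7) / 4 := ⟨_, rfl⟩
  have hδ0 : 0 < δ := by rw [hδ]; linarith
  have hδ1 : δ < 1 / 4 := by
    have : 0 < κ * l7 := by positivity
    rw [hδ]; linarith
  obtain ⟨μ, hμ⟩ : ∃ μ : ℝ, μ = κ * lam - 1 / 200 := ⟨_, rfl⟩
  have hμ0 : 0 < μ := by rw [hμ]; linarith
  -- large `X`
  have hev : ∃ X₀ : ℕ, 1 ≤ X₀ ∧ ∀ X : ℕ, X₀ ≤ X → κ / (14 * δ) ≤ (X : ℝ) ^ (18 / 25 * (1 - δ)) := by
    have h1 : Filter.Tendsto (fun X : ℕ => (X : ℝ) ^ (18 / 25 * (1 - δ))) Filter.atTop Filter.atTop :=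
      (tendsto_rpow_atTop (by nlinarith)).comp tendsto_natCast_atTop_atTop
    obtain ⟨X₀, h2⟩ := Filter.eventually_atTop.1 (h1.eventually_ge_atTop (κ / (14 * δ)))
    exact ⟨X₀ + 1, by omega, fun X hX => h2 X (by omega)⟩
  obtain ⟨X₀, hX₀, hlarge⟩ := hev
  set A₂ : ℝ := 780 * Real.exp lam * ((κ + 2) * (2 / μ) + 1) with hA₂
  have hA₂0 : 0 ≤ A₂ := by positivity
  refine ⟨1 + A₂ + X₀, min δ (μ / 2), lt_min hδ0 (by linarith), fun X hX => ?_⟩
  set η := min δ (μ / 2) with hη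
  have hη1 : η ≤ δ := min_le_left _ _
  have hη2 : η ≤ μ / 2 := min_le_right _ _
  have hX1 : (1 : ℝ) ≤ X := by exact_mod_cast hX
  have hXp : (0 : ℝ) < X := by linarith
  have hpow1 : 1 ≤ (X : ℝ) ^ (1 - η) := Real.one_le_rpow hX1 (by linarith)
  by_cases hXX : X < X₀
  · have h1 : (((Icc 1 X).filter fun n : ℕ => ∀ i, (n : ℝ) ^ (0.72 : ℝ) ≤ (C^[i] n : ℝ)).card : ℝ) ≤ X := by
      have := card_filter_le (Icc 1 X) fun n : ℕ => ∀ i, (n : ℝ) ^ (0.72 : ℝ) ≤ (C^[i] n : ℝ)
      rw [Nat.card_Icc, Nat.add_sub_cancel] at this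
      exact_mod_cast this
    have h2 : (X : ℝ) ≤ X₀ := by exact_mod_cast hXX.le
    calc _ ≤ (X : ℝ) := h1
      _ ≤ (1 + A₂ + X₀) * 1 := by linarith
      _ ≤ _ := mul_le_mul_of_nonneg_left hpow1 (by positivity)
  · have hXX' : X₀ ≤ X := by omega
    have hL := hlarge X hXX'
    set ξ := Real.log X with hξ
    have hξ0 : 0 ≤ ξ := Real.log_nonneg hX1
    set L := (X : ℝ) ^ (18 / 25 * (1 - δ)) with hLd
    have hL0 : 0 < L := Real.rpow_pos_of_pos hXp _
    set Y := (X : ℝ) ^ (1 - δ) with hYd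
    have hY1 : 1 ≤ Y := Real.one_le_rpow hX1 (by linarith)
    have hYX : Y ≤ X := by
      calc Y ≤ (X : ℝ) ^ (1 : ℝ) := Real.rpow_le_rpow_of_exponent_le hX1 (by linarith)
        _ = X := Real.rpow_one _
    set k := ⌊κ * ξ⌋₊ with hk
    have hk1 : (k : ℝ) ≤ κ * ξ := Nat.floor_le (by positivity)
    have hk2 : κ * ξ < k + 1 := Nat.lt_floor_add_one _
    set l := ⌊2 * ξ⌋₊ + 1 with hl
    have hl1 : (l : ℝ) ≤ 2 * ξ + 1 := by
      rw [hl]
      push_cast
      have := Nat.floor_le (a := 2 * ξ) (by positivity)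
      linarith
    have hlogX : (X : ℝ) = Real.exp ξ := (Real.exp_log hXp).symm
    have hlY : Y < 2 ^ l := by
      have h1 : 2 * ξ < l := by
        rw [hl]
        push_cast
        exact Nat.lt_floor_add_one _
      have h2 : (2 : ℝ) ^ l = Real.exp (l * Real.log 2) := by
        rw [mul_comm, Real.exp_mul, Real.exp_log (by norm_num), Real.rpow_natCast]
      rw [h2]
      calc Y ≤ X := hYX
        _ = Real.exp ξ := hlogX
        _ < _ := by
          apply Real.exp_lt_exp.2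
          have h3 := Real.log_two_gt_d9
          nlinarith
    have hLY : (7 + 1 / L) ^ k * X ≤ L * Y := by
      have h1 : (7 + 1 / L) ^ k = Real.exp (k * Real.log (7 + 1 / L)) := by
        rw [mul_comm, Real.exp_mul, Real.exp_log (by positivity), Real.rpow_natCast]
      have h2 : L * Y = Real.exp (ξ * (18 / 25 * (1 - δ)) + ξ * (1 - δ)) := by
        rw [Real.exp_add, hLd, hYd, Real.rpow_def_of_pos hXp, Real.rpow_def_of_pos hXp]
      rw [h1, h2, hlogX, ← Real.exp_add]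
      apply Real.exp_le_exp.2
      have h3 : Real.log (7 + 1 / L) ≤ l7 + 1 / (7 * L) := by
        have e1 : 7 + 1 / L = 7 * (1 + 1 / (7 * L)) := by field_simp
        rw [e1, Real.log_mul (by norm_num) (by positivity)]
        have := Real.log_le_sub_one_of_pos (x := 1 + 1 / (7 * L)) (by positivity)
        linarith
      have h4 : κ * (1 / (7 * L)) ≤ 2 * δ := by
        have h5 : κ ≤ 14 * δ * L := by
          rw [div_le_iff₀ (by positivity)] at hL
          linarith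
        rw [mul_one_div, div_le_iff₀ (by positivity)]
        linarith
      have h5 : 0 ≤ l7 + 1 / (7 * L) := by positivity
      have h6 : (k : ℝ) * Real.log (7 + 1 / L) ≤ ξ * (κ * l7 + 2 * δ) := by
        calc (k : ℝ) * Real.log (7 + 1 / L) ≤ k * (l7 + 1 / (7 * L)) :=
              mul_le_mul_of_nonneg_left h3 (Nat.cast_nonneg _)
          _ ≤ κ * ξ * (l7 + 1 / (7 * L)) := mul_le_mul_of_nonneg_right hk1 h5
          _ = ξ * (κ * l7 + κ * (1 / (7 * L))) := by ring
          _ ≤ _ := mul_le_mul_of_nonneg_left (by linarith) hξ0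
      have h7 : κ * l7 = 18 / 25 - 4 * δ := by rw [hδ]; ring
      rw [h7] at h6
      nlinarith
    have hhigh := card_high X k l hL0 hY1 hYX hlY hLY
    -- the bound for the second set
    have hs := s_pos
    have hsk : s ^ k ≤ Real.exp lam * (X : ℝ) ^ (-(κ * lam)) := by
      have e1 : s ^ k = Real.exp (-(lam * k)) := by
        have : s = Real.exp (-lam) := by
          rw [hlam, neg_neg, Real.exp_log hs]
        rw [this, ← Real.exp_nat_mul]
        congr 1
        ring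
      have e2 : Real.exp lam * (X : ℝ) ^ (-(κ * lam)) = Real.exp (lam + ξ * (-(κ * lam))) := by
        rw [Real.exp_add, Real.rpow_def_of_pos hXp]
      rw [e1, e2]
      apply Real.exp_le_exp.2
      nlinarith
    have hxi : ξ ≤ (2 / μ) * (X : ℝ) ^ (μ / 2) := by
      have := Real.log_le_rpow_div (x := X) hXp.le (ε := μ / 2) (by linarith)
      calc ξ ≤ _ := this
        _ = _ := by
          field_simp
    have h1X : 1 ≤ (X : ℝ) ^ (μ / 2) := Real.one_le_rpow hX1 (by linarith)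
    have hkl : ((k + l : ℕ) : ℝ) ≤ ((κ + 2) * (2 / μ) + 1) * (X : ℝ) ^ (μ / 2) := by
      push_cast
      have h1 : (k : ℝ) + l ≤ (κ + 2) * ξ + 1 := by linarith
      have h2 : (κ + 2) * ξ ≤ (κ + 2) * ((2 / μ) * (X : ℝ) ^ (μ / 2)) :=
        mul_le_mul_of_nonneg_left hxi (by linarith)
      linarith
    have hfin : ((k + l : ℕ) : ℝ) * (780 * (X * (X : ℝ) ^ (1 / 200 : ℝ) * s ^ k)) ≤
        A₂ * (X : ℝ) ^ (1 - η) := by
      have e1 : (X : ℝ) ^ (μ / 2) * (X * (X : ℝ) ^ (1 / 200 : ℝ) * (X : ℝ) ^ (-(κ * lam))) =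
          (X : ℝ) ^ (1 - μ / 2) := by
        have : (X : ℝ) * (X : ℝ) ^ (1 / 200 : ℝ) = (X : ℝ) ^ (1 + 1 / 200 : ℝ) := by
          rw [Real.rpow_add hXp, Real.rpow_one]
        rw [this, ← Real.rpow_add hXp, ← Real.rpow_add hXp]
        congr 1
        rw [hμ]
        ring
      calc ((k + l : ℕ) : ℝ) * (780 * (X * (X : ℝ) ^ (1 / 200 : ℝ) * s ^ k)) ≤
          (((κ + 2) * (2 / μ) + 1) * (X : ℝ) ^ (μ / 2)) * (780 * (X * (X : ℝ) ^ (1 / 200 : ℝ) *
            (Real.exp lam * (X : ℝ) ^ (-(κ * lam))))) := by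
            gcongr
        _ = A₂ * ((X : ℝ) ^ (μ / 2) * (X * (X : ℝ) ^ (1 / 200 : ℝ) * (X : ℝ) ^ (-(κ * lam)))) := by
            rw [hA₂]; ring
        _ = A₂ * (X : ℝ) ^ (1 - μ / 2) := by rw [e1]
        _ ≤ _ := by
            apply mul_le_mul_of_nonneg_left _ hA₂0
            exact Real.rpow_le_rpow_of_exponent_le hX1 (by linarith)
    -- the split
    have hsplit : ((Icc 1 X).filter fun n : ℕ => ∀ i, (n : ℝ) ^ (0.72 : ℝ) ≤ (C^[i] n : ℝ)) ⊆
        (Icc 1 ⌊Y⌋₊) ∪ ((Icc 1 X).filter fun n : ℕ => ∀ i, L ≤ (C^[i] n : ℝ)) := by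
      intro n hn
      obtain ⟨hn1, hn2⟩ := mem_filter.1 hn
      obtain ⟨hn3, hn4⟩ := mem_Icc.1 hn1
      rw [mem_union]
      by_cases hnY : (n : ℝ) ≤ Y
      · left
        exact mem_Icc.2 ⟨hn3, Nat.le_floor hnY⟩
      · right
        refine mem_filter.2 ⟨hn1, fun i => le_trans ?_ (hn2 i)⟩
        have h1 : L = Y ^ (0.72 : ℝ) := by
          rw [hLd, hYd, ← Real.rpow_mul hXp.le]
          congr 1
          norm_num
          ring
        rw [h1]
        exact Real.rpow_le_rpow (by linarith) (le_of_lt (not_le.1 hnY)) (by norm_num)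
    have h1 := (Nat.cast_le (α := ℝ)).2 ((card_le_card hsplit).trans (card_union_le _ _))
    rw [Nat.card_Icc, Nat.add_sub_cancel] at h1
    push_cast at h1
    have h2 : ((⌊Y⌋₊ : ℕ) : ℝ) ≤ (X : ℝ) ^ (1 - η) := by
      calc ((⌊Y⌋₊ : ℕ) : ℝ) ≤ Y := Nat.floor_le (by linarith)
        _ ≤ _ := Real.rpow_le_rpow_of_exponent_le hX1 (by linarith)
    have h3 : (0 : ℝ) ≤ (X₀ : ℝ) * (X : ℝ) ^ (1 - η) := by positivity
    calc _ ≤ _ := h1
      _ ≤ (X : ℝ) ^ (1 - η) + A₂ * (X : ℝ) ^ (1 - η) := add_le_add h2 (hhigh.trans hfin)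
      _ ≤ _ := by linarith

end Pool.Agent.Results.MP_13c925_nt.AlmostAllIterates
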